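import Mathlib

/-!
# The theta graph `Θ_{3,3,3}` is metrizable

Every consistent path system in the graph consisting of three paths with three edges between two
vertices is induced by positive edge weights. The proof is a search tree with 240 weight functions,
checked by the kernel.
-/

set_option autoImplicit false
set_option maxRecDepth 100000

namespace Pool.Agent.Results.MP_d7339e_co.ThetaThree

section defs

variable {V : Type*}

/-- `l` is a simple path in `G` from `u` to `v`, given by the list of its vertices. -/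
def IsPath (G : SimpleGraph V) (u v : V) (l : List V) : Prop :=
  l.head? = some u ∧ l.getLast? = some v ∧ l.Nodup ∧ l.IsChain G.Adj

/-- A path system: one path for each pair of vertices. The path from `v` to `u` is the reversed
path from `u` to `v`. -/
structure PathSystem (G : SimpleGraph V) where
  path : V → V → List V
  isPath : ∀ u v, IsPath G u v (path u v)
  symm : ∀ u v, path v u = (path u v).reverse

/-- The subpaths of the paths of the system are in the system. -/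
def PathSystem.Consistent {G : SimpleGraph V} (P : PathSystem G) : Prop :=
  ∀ u v x y l, l <:+: P.path u v → l.head? = some x → l.getLast? = some y → P.path x y = l

/-- The sum of the weights of the edges of a path. -/
def weight (w : V → V → ℝ) : List V → ℝ
  | [] => 0
  | [_] => 0
  | a :: b :: l => w a b + weight w (b :: l)

/-- The paths of the system are shortest paths for `w`. -/
def PathSystem.InducedBy {G : SimpleGraph V} (P : PathSystem G) (w : V → V → ℝ) : Prop :=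
  ∀ u v l, IsPath G u v l → weight w (P.path u v) ≤ weight w l

/-- Every consistent path system is induced by positive edge weights. -/
def Metrizable (G : SimpleGraph V) : Prop :=
  ∀ P : PathSystem G, P.Consistent → ∃ w : V → V → ℝ, (∀ u v, w u v = w v u) ∧
    (∀ u v, G.Adj u v → 0 < w u v) ∧ P.InducedBy w

end defs

/-- The edges of `Θ_{3,3,3}`: the paths `0 2 3 1`, `0 4 5 1` and `0 6 7 1` from `0` to `1`. -/
def edges : List (Fin 8 × Fin 8) :=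
  [(0, 2), (2, 3), (1, 3), (0, 4), (4, 5), (1, 5), (0, 6), (6, 7), (1, 7)]

/-- The graph `Θ_{3,3,3}`. -/
def theta333 : SimpleGraph (Fin 8) where
  Adj u v := (u, v) ∈ edges ∨ (v, u) ∈ edges
  symm := ⟨fun _ _ h => h.symm⟩
  loopless := ⟨by decide⟩

/-! ### Data -/

/-- The simple paths with at least one edge, from the smaller to the larger end. -/
def opts : List (List (Fin 8)) := [
  [0, 2, 3, 1], [0, 4, 5, 1], [0, 6, 7, 1], [0, 2], [0, 4, 5, 1, 3, 2], [0, 6, 7, 1, 3, 2],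
  [0, 2, 3], [0, 4, 5, 1, 3], [0, 6, 7, 1, 3], [0, 2, 3, 1, 5, 4], [0, 4], [0, 6, 7, 1, 5, 4],
  [0, 2, 3, 1, 5], [0, 4, 5], [0, 6, 7, 1, 5], [0, 2, 3, 1, 7, 6], [0, 4, 5, 1, 7, 6], [0, 6],
  [0, 2, 3, 1, 7], [0, 4, 5, 1, 7], [0, 6, 7], [1, 3, 2], [1, 5, 4, 0, 2], [1, 7, 6, 0, 2],
  [1, 3], [1, 5, 4, 0, 2, 3], [1, 7, 6, 0, 2, 3], [1, 3, 2, 0, 4], [1, 5, 4], [1, 7, 6, 0, 4],
  [1, 3, 2, 0, 4, 5], [1, 5], [1, 7, 6, 0, 4, 5], [1, 3, 2, 0, 6], [1, 5, 4, 0, 6], [1, 7, 6],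
  [1, 3, 2, 0, 6, 7], [1, 5, 4, 0, 6, 7], [1, 7], [2, 0, 4, 5, 1, 3], [2, 0, 6, 7, 1, 3], [2, 3],
  [2, 0, 4], [2, 0, 6, 7, 1, 5, 4], [2, 3, 1, 5, 4], [2, 3, 1, 7, 6, 0, 4], [2, 0, 4, 5], [2, 0, 6, 7, 1, 5],
  [2, 3, 1, 5], [2, 3, 1, 7, 6, 0, 4, 5], [2, 0, 4, 5, 1, 7, 6], [2, 0, 6], [2, 3, 1, 5, 4, 0, 6], [2, 3, 1, 7, 6],
  [2, 0, 4, 5, 1, 7], [2, 0, 6, 7], [2, 3, 1, 5, 4, 0, 6, 7], [2, 3, 1, 7], [3, 1, 5, 4], [3, 1, 7, 6, 0, 4],
  [3, 2, 0, 4], [3, 2, 0, 6, 7, 1, 5, 4], [3, 1, 5], [3, 1, 7, 6, 0, 4, 5], [3, 2, 0, 4, 5], [3, 2, 0, 6, 7, 1, 5],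
  [3, 1, 5, 4, 0, 6], [3, 1, 7, 6], [3, 2, 0, 4, 5, 1, 7, 6], [3, 2, 0, 6], [3, 1, 5, 4, 0, 6, 7], [3, 1, 7],
  [3, 2, 0, 4, 5, 1, 7], [3, 2, 0, 6, 7], [4, 0, 2, 3, 1, 5], [4, 0, 6, 7, 1, 5], [4, 5], [4, 0, 2, 3, 1, 7, 6],
  [4, 0, 6], [4, 5, 1, 3, 2, 0, 6], [4, 5, 1, 7, 6], [4, 0, 2, 3, 1, 7], [4, 0, 6, 7], [4, 5, 1, 3, 2, 0, 6, 7],
  [4, 5, 1, 7], [5, 1, 3, 2, 0, 6], [5, 1, 7, 6], [5, 4, 0, 2, 3, 1, 7, 6], [5, 4, 0, 6], [5, 1, 3, 2, 0, 6, 7],
  [5, 1, 7], [5, 4, 0, 2, 3, 1, 7], [5, 4, 0, 6, 7], [6, 0, 2, 3, 1, 7], [6, 0, 4, 5, 1, 7], [6, 7]]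

/-- The number of the pair of ends. -/
def pidxs : List ℕ := [
  0, 0, 0, 1, 1, 1, 2, 2, 2, 3, 3, 3, 4, 4, 4, 5, 5, 5, 6, 6, 6, 7, 7, 7,
  8, 8, 8, 9, 9, 9, 10, 10, 10, 11, 11, 11, 12, 12, 12, 13, 13, 13, 14, 14, 14, 14, 15, 15,
  15, 15, 16, 16, 16, 16, 17, 17, 17, 17, 18, 18, 18, 18, 19, 19, 19, 19, 20, 20, 20, 20, 21, 21,
  21, 21, 22, 22, 22, 23, 23, 23, 23, 24, 24, 24, 24, 25, 25, 25, 25, 26, 26, 26, 26, 27, 27, 27]

/-- The pairs. -/
def endss : List (Fin 8 × Fin 8) := [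
  (0, 1), (0, 2), (0, 3), (0, 4), (0, 5), (0, 6), (0, 7), (1, 2),
  (1, 3), (1, 4), (1, 5), (1, 6), (1, 7), (2, 3), (2, 4), (2, 5),
  (2, 6), (2, 7), (3, 4), (3, 5), (3, 6), (3, 7), (4, 5), (4, 6),
  (4, 7), (5, 6), (5, 7), (6, 7)]

/-- The subpaths. -/
def infs : List (List ℕ) := [
  [0, 3, 6, 21, 24, 41], [1, 10, 13, 28, 31, 76],
  [2, 17, 20, 35, 38, 95], [3],
  [1, 4, 7, 10, 13, 21, 24, 28, 31, 41, 44, 48, 58, 62, 76], [2, 5, 8, 17, 20, 21, 24, 35, 38, 41, 53, 57, 67, 71, 95],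
  [3, 6, 41], [1, 7, 10, 13, 24, 28, 31, 58, 62, 76],
  [2, 8, 17, 20, 24, 35, 38, 67, 71, 95], [0, 3, 6, 9, 12, 21, 24, 28, 31, 41, 44, 48, 58, 62, 76],
  [10], [2, 11, 14, 17, 20, 28, 31, 35, 38, 76, 80, 84, 86, 90, 95],
  [0, 3, 6, 12, 21, 24, 31, 41, 48, 62], [10, 13, 76],
  [2, 14, 17, 20, 31, 35, 38, 86, 90, 95], [0, 3, 6, 15, 18, 21, 24, 35, 38, 41, 53, 57, 67, 71, 95],
  [1, 10, 13, 16, 19, 28, 31, 35, 38, 76, 80, 84, 86, 90, 95], [17],
  [0, 3, 6, 18, 21, 24, 38, 41, 57, 71], [1, 10, 13, 19, 28, 31, 38, 76, 84, 90],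
  [17, 20, 95], [21, 24, 41],
  [1, 3, 10, 13, 22, 28, 31, 42, 46, 76], [2, 3, 17, 20, 23, 35, 38, 51, 55, 95],
  [24], [1, 3, 6, 10, 13, 22, 25, 28, 31, 41, 42, 46, 60, 64, 76],
  [2, 3, 6, 17, 20, 23, 26, 35, 38, 41, 51, 55, 69, 73, 95], [0, 3, 6, 10, 21, 24, 27, 41, 42, 60],
  [28, 31, 76], [2, 10, 17, 20, 29, 35, 38, 78, 82, 95],
  [0, 3, 6, 10, 13, 21, 24, 27, 30, 41, 42, 46, 60, 64, 76], [31],
  [2, 10, 13, 17, 20, 29, 32, 35, 38, 76, 78, 82, 88, 92, 95], [0, 3, 6, 17, 21, 24, 33, 41, 51, 69],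
  [1, 10, 13, 17, 28, 31, 34, 76, 78, 88], [35, 38, 95],
  [0, 3, 6, 17, 20, 21, 24, 33, 36, 41, 51, 55, 69, 73, 95], [1, 10, 13, 17, 20, 28, 31, 34, 37, 76, 78, 82, 88, 92, 95],
  [38], [1, 3, 7, 10, 13, 22, 24, 28, 31, 39, 42, 46, 58, 62, 76],
  [2, 3, 8, 17, 20, 23, 24, 35, 38, 40, 51, 55, 67, 71, 95], [41],
  [3, 10, 42], [2, 3, 11, 14, 17, 20, 23, 28, 31, 35, 38, 43, 47, 51, 55, 76, 80, 84, 86, 90, 95],
  [21, 24, 28, 31, 41, 44, 48, 58, 62, 76], [2, 5, 8, 10, 17, 20, 21, 24, 29, 35, 38, 41, 45, 53, 57, 59, 67, 71, 78, 82, 95],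
  [3, 10, 13, 42, 46, 76], [2, 3, 14, 17, 20, 23, 31, 35, 38, 47, 51, 55, 86, 90, 95],
  [21, 24, 31, 41, 48, 62], [2, 5, 8, 10, 13, 17, 20, 21, 24, 29, 32, 35, 38, 41, 45, 49, 53, 57, 59, 63, 67, 71, 76, 78, 82, 88, 92, 95],
  [1, 3, 10, 13, 16, 19, 22, 28, 31, 35, 38, 42, 46, 50, 54, 76, 80, 84, 86, 90, 95], [3, 17, 51],
  [1, 4, 7, 10, 13, 17, 21, 24, 28, 31, 34, 41, 44, 48, 52, 58, 62, 66, 76, 78, 88], [21, 24, 35, 38, 41, 53, 57, 67, 71, 95],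
  [1, 3, 10, 13, 19, 22, 28, 31, 38, 42, 46, 54, 76, 84, 90], [3, 17, 20, 51, 55, 95],
  [1, 4, 7, 10, 13, 17, 20, 21, 24, 28, 31, 34, 37, 41, 44, 48, 52, 56, 58, 62, 66, 70, 76, 78, 82, 88, 92, 95], [21, 24, 38, 41, 57, 71],
  [24, 28, 31, 58, 62, 76], [2, 8, 10, 17, 20, 24, 29, 35, 38, 59, 67, 71, 78, 82, 95],
  [3, 6, 10, 41, 42, 60], [2, 3, 6, 11, 14, 17, 20, 23, 26, 28, 31, 35, 38, 41, 43, 47, 51, 55, 61, 65, 69, 73, 76, 80, 84, 86, 90, 95],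
  [24, 31, 62], [2, 8, 10, 13, 17, 20, 24, 29, 32, 35, 38, 59, 63, 67, 71, 76, 78, 82, 88, 92, 95],
  [3, 6, 10, 13, 41, 42, 46, 60, 64, 76], [2, 3, 6, 14, 17, 20, 23, 26, 31, 35, 38, 41, 47, 51, 55, 65, 69, 73, 86, 90, 95],
  [1, 7, 10, 13, 17, 24, 28, 31, 34, 58, 62, 66, 76, 78, 88], [24, 35, 38, 67, 71, 95],
  [1, 3, 6, 10, 13, 16, 19, 22, 25, 28, 31, 35, 38, 41, 42, 46, 50, 54, 60, 64, 68, 72, 76, 80, 84, 86, 90, 95], [3, 6, 17, 41, 51, 69],
  [1, 7, 10, 13, 17, 20, 24, 28, 31, 34, 37, 58, 62, 66, 70, 76, 78, 82, 88, 92, 95], [24, 38, 71],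
  [1, 3, 6, 10, 13, 19, 22, 25, 28, 31, 38, 41, 42, 46, 54, 60, 64, 72, 76, 84, 90], [3, 6, 17, 20, 41, 51, 55, 69, 73, 95],
  [0, 3, 6, 10, 12, 21, 24, 27, 31, 41, 42, 48, 60, 62, 74], [2, 10, 14, 17, 20, 29, 31, 35, 38, 75, 78, 82, 86, 90, 95],
  [76], [0, 3, 6, 10, 15, 18, 21, 24, 27, 35, 38, 41, 42, 53, 57, 60, 67, 71, 77, 81, 95],
  [10, 17, 78], [0, 3, 6, 9, 12, 17, 21, 24, 28, 31, 33, 41, 44, 48, 51, 58, 62, 69, 76, 79, 85],
  [28, 31, 35, 38, 76, 80, 84, 86, 90, 95], [0, 3, 6, 10, 18, 21, 24, 27, 38, 41, 42, 57, 60, 71, 81],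
  [10, 17, 20, 78, 82, 95], [0, 3, 6, 9, 12, 17, 20, 21, 24, 28, 31, 33, 36, 41, 44, 48, 51, 55, 58, 62, 69, 73, 76, 79, 83, 85, 89, 95],
  [28, 31, 38, 76, 84, 90], [0, 3, 6, 12, 17, 21, 24, 31, 33, 41, 48, 51, 62, 69, 85],
  [31, 35, 38, 86, 90, 95], [0, 3, 6, 10, 13, 15, 18, 21, 24, 27, 30, 35, 38, 41, 42, 46, 53, 57, 60, 64, 67, 71, 76, 77, 81, 87, 91, 95],
  [10, 13, 17, 76, 78, 88], [0, 3, 6, 12, 17, 20, 21, 24, 31, 33, 36, 41, 48, 51, 55, 62, 69, 73, 85, 89, 95],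
  [31, 38, 90], [0, 3, 6, 10, 13, 18, 21, 24, 27, 30, 38, 41, 42, 46, 57, 60, 64, 71, 76, 81, 91],
  [10, 13, 17, 20, 76, 78, 82, 88, 92, 95], [0, 3, 6, 17, 18, 21, 24, 33, 38, 41, 51, 57, 69, 71, 93],
  [1, 10, 13, 17, 19, 28, 31, 34, 38, 76, 78, 84, 88, 90, 94], [95]]

/-- The compatible paths, as a bit mask. -/
def cms : List ℕ := [
  0xbffff6a956a9565ad936b649, 0xd55553fd57fd56ec937b24da, 0x95555aabfeabff49b5b26d6c,
  0xfffffffffeeddfffffffffcf, 0xd55550cc4731126c913b2492, 0x95555888ce233249b1326d24,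
  0xffffffbb76edde7ffffffe4f, 0xd55550cc47fddeec91fb249a, 0x95555888ceefff49b1f26d2c,
  0xa67992a846a9125a91369249, 0xfff77fffdffff7fffffff5ff, 0x845112aa66a99b4895b2496c,
  0xa67ff6a85ea9365ab9369649, 0xfdd773fddfff77ffffffa5ff, 0x84577aaa7ea9bf48bdb24d6c,
  0x8cd3348956215648d924b649, 0x84511199566556c8936924da, 0xff7fdfeffffbfffffffe7fff,
  0xadf3f4ad5639564ed926b649, 0xc571d1bd567d56ce936b24da, 0x977ddeefffbbfffffff27fff,
  0xfffffeeddfbb767ff93fffff, 0xd55553fddccc46ec935b25ca, 0x95555aeffc88cf49b5926dcc,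
  0xfffffeeddffffffff9ffffff, 0xd555533110cc466c925b244a, 0x95555a233088ce49b4926c4c,
  0xbfe676ab52a9c65ac936f449, 0xf77dd3ff77fddffe97ffffff, 0x97645aabdaabe749a5b2756c,
  0xb98672a912a8465a4936a449, 0xf77fffff7ffdfffebfffffff, 0x910452a99aaa674925b2256c,
  0xbf3ed7a156c95652d93e3649, 0xdd1653e557d956e4937e24da, 0x9dd77fbbfeefffc9ffffffff,
  0x932cd62154895612d9323649, 0x91045265559956a4937224da, 0xfdf7ffbffeffffcfffffffff,
  0xd55550cc44cc44ec915b248a, 0x95555888cc88cd49b1926d0c, 0xfffffffffffffe7fffffffff,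
  0xfff77fffdeedc7fffffff5cf, 0x845112eeec888b48959249cc, 0xf77dd2ec47b9127e913fffff,
  0x9764588aca23a249a1327524, 0xfdd773fddeec47ffffffa5cf, 0x84577aeefc88af48bd924dcc,
  0xf77ffeec5fb9367eb93fffff, 0x910450888a22224921322524, 0x845111dddc4446c8934925ca,
  0xff7fdfeffec9dffffffe7fcf, 0xdd1651c447511264913e2492, 0x9dd77c89de237649f93fffff,
  0xc571d1fddc5c46ce934b25ca, 0x977ddeeffc89dffffff27fcf, 0x910450444511122491322492,
  0xfdf7fcadde3b764ff93fffff, 0xf77dd2ec47fddffe91ffffff, 0x9764588acaefef49a1f2752c,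
  0xfff77fbb52edc67ffffff44f, 0x8451122220888a489492484c, 0xf77ffeec5ffdfffeb9ffffff,
  0x910450888aeeef4921f2252c, 0xfdd773b912ec467fffffa44f, 0x84577a223888ae48bc924c4c,
  0xdd1651c447dddee491fe249a, 0x9dd77c89deefffc9f9ffffff, 0x84511111104446489249244a,
  0xff7fdfa376c9de7ffffe7e4f, 0x9104504445dddea491f2249a, 0xfdf7fcaddeffffcff9ffffff,
  0xc571d135105c464e924b244a, 0x977dde237489de7ffff27e4f, 0xa66666a852a9065a89369449,
  0x84444aaa5aa9a748a5b2456c, 0xfffff3ffffffffffffffffff, 0x8ee2348b5221c648c924f449,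
  0xff765fefdffbf7fffffe75ff, 0xae3a93a046c91252913e1249, 0x845113bb76eddfc897ffffff,
  0xafe2f4af5239c64ec926f449, 0x97645eefdfbbf7fffff275ff, 0x822892204489121291321249,
  0xe571d3bf76fddfce97ffffff, 0xae3ef7a05ec93652b93e1649, 0x84577fbb7eedffc8bfffffff,
  0x88823089122046484924a449, 0xfd1653eddffb77fffffe25ff, 0x822ef6205c893612b9321649,
  0xe577ffbf7efdffcebfffffff, 0xa9a2f0ad1238464e4926a449, 0x910452eddfbb77fffff225ff,
  0x2d32d4a156095642d9263649, 0x451051a5565956c4936a24da, 0x9fffffffffffffffffffffff]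

/-- The paths with given ends, as a bit mask. -/
def pms : List ℕ := [
  0x7, 0x38, 0x1c0,
  0xe00, 0x7000, 0x38000,
  0x1c0000, 0xe00000, 0x7000000,
  0x38000000, 0x1c0000000, 0xe00000000,
  0x7000000000, 0x38000000000, 0x3c0000000000,
  0x3c00000000000, 0x3c000000000000, 0x3c0000000000000,
  0x3c00000000000000, 0x3c000000000000000, 0x3c0000000000000000,
  0x3c00000000000000000, 0x1c000000000000000000, 0x1e0000000000000000000,
  0x1e00000000000000000000, 0x1e000000000000000000000, 0x1e0000000000000000000000,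
  0xe00000000000000000000000]

/-- The numbers of the edges of the paths. -/
def edss : List (List ℕ) := [
  [0, 1, 2], [3, 4, 5], [6, 7, 8], [0], [3, 4, 5, 2, 1], [6, 7, 8, 2, 1],
  [0, 1], [3, 4, 5, 2], [6, 7, 8, 2], [0, 1, 2, 5, 4], [3], [6, 7, 8, 5, 4],
  [0, 1, 2, 5], [3, 4], [6, 7, 8, 5], [0, 1, 2, 8, 7], [3, 4, 5, 8, 7], [6],
  [0, 1, 2, 8], [3, 4, 5, 8], [6, 7], [2, 1], [5, 4, 3, 0], [8, 7, 6, 0],
  [2], [5, 4, 3, 0, 1], [8, 7, 6, 0, 1], [2, 1, 0, 3], [5, 4], [8, 7, 6, 3],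
  [2, 1, 0, 3, 4], [5], [8, 7, 6, 3, 4], [2, 1, 0, 6], [5, 4, 3, 6], [8, 7],
  [2, 1, 0, 6, 7], [5, 4, 3, 6, 7], [8], [0, 3, 4, 5, 2], [0, 6, 7, 8, 2], [1],
  [0, 3], [0, 6, 7, 8, 5, 4], [1, 2, 5, 4], [1, 2, 8, 7, 6, 3], [0, 3, 4], [0, 6, 7, 8, 5],
  [1, 2, 5], [1, 2, 8, 7, 6, 3, 4], [0, 3, 4, 5, 8, 7], [0, 6], [1, 2, 5, 4, 3, 6], [1, 2, 8, 7],
  [0, 3, 4, 5, 8], [0, 6, 7], [1, 2, 5, 4, 3, 6, 7], [1, 2, 8], [2, 5, 4], [2, 8, 7, 6, 3],
  [1, 0, 3], [1, 0, 6, 7, 8, 5, 4], [2, 5], [2, 8, 7, 6, 3, 4], [1, 0, 3, 4], [1, 0, 6, 7, 8, 5],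
  [2, 5, 4, 3, 6], [2, 8, 7], [1, 0, 3, 4, 5, 8, 7], [1, 0, 6], [2, 5, 4, 3, 6, 7], [2, 8],
  [1, 0, 3, 4, 5, 8], [1, 0, 6, 7], [3, 0, 1, 2, 5], [3, 6, 7, 8, 5], [4], [3, 0, 1, 2, 8, 7],
  [3, 6], [4, 5, 2, 1, 0, 6], [4, 5, 8, 7], [3, 0, 1, 2, 8], [3, 6, 7], [4, 5, 2, 1, 0, 6, 7],
  [4, 5, 8], [5, 2, 1, 0, 6], [5, 8, 7], [4, 3, 0, 1, 2, 8, 7], [4, 3, 6], [5, 2, 1, 0, 6, 7],
  [5, 8], [4, 3, 0, 1, 2, 8], [4, 3, 6, 7], [6, 0, 1, 2, 8], [6, 3, 4, 5, 8], [7]]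

/-- The weights; the hexadecimal digits are the weights of the edges. -/
def wts : List ℕ := [
  0x111111111, 0x311111111, 0x221111111, 0x122111111, 0x111311111, 0x113311111,
  0x111221111, 0x122221111, 0x111122111, 0x221122111, 0x311113111, 0x112211211,
  0x112321211, 0x123321211, 0x211112211, 0x321112211, 0x112112211, 0x123112211,
  0x321123211, 0x112123211, 0x111111311, 0x113111311, 0x111113311, 0x122111221,
  0x111122221, 0x112211321, 0x123211321, 0x211112321, 0x123112321, 0x211123321,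
  0x112123321, 0x111111131, 0x211211112, 0x321211112, 0x112211112, 0x123211112,
  0x211321112, 0x123321112, 0x211112112, 0x211123112, 0x321123112, 0x111111122,
  0x221111122, 0x111221122, 0x311111113, 0x111311113, 0x321211123, 0x112211123,
  0x211321123, 0x112321123, 0x211112123, 0x321112123, 0x231211211, 0x211321211,
  0x211231211, 0x212331311, 0x331212311, 0x212212311, 0x113212311, 0x212113311,
  0x211211321, 0x311111131, 0x111311131, 0x212311331, 0x311212331, 0x132112112,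
  0x112132112, 0x331311212, 0x212311212, 0x113311212, 0x311331212, 0x311212212,
  0x113212212, 0x311113212, 0x212113212, 0x133113212, 0x113133212, 0x112112132,
  0x212311113, 0x311212113, 0x212212113, 0x133212113, 0x212133113, 0x112112123,
  0x113212133, 0x212113133, 0x221311111, 0x311221111, 0x113122111, 0x122113111,
  0x211211211, 0x321321211, 0x123123211, 0x221111311, 0x111221311, 0x311111221,
  0x111311221, 0x321211321, 0x211321321, 0x112321321, 0x321112321, 0x321321112,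
  0x112112112, 0x123123112, 0x113111122, 0x111113122, 0x122111113, 0x111122113,
  0x123211123, 0x123112123, 0x211123123, 0x112123123, 0x111511115, 0x511111115,
  0x111115511, 0x115111511, 0x511115111, 0x115511111, 0x111115151, 0x111115221,
  0x111151115, 0x111221115, 0x115111151, 0x115111221, 0x221111115, 0x151111115,
  0x111511151, 0x111511122, 0x111151511, 0x111122511, 0x511111151, 0x511111122,
  0x113111511, 0x151111511, 0x122111511, 0x115221111, 0x115151111, 0x221115111,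
  0x151115111, 0x511113111, 0x511151111, 0x511122111, 0x113511111, 0x151511111,
  0x122511111, 0x115111115, 0x122111115, 0x111111115, 0x113111115, 0x211211116,
  0x115111111, 0x115111122, 0x115111113, 0x115111311, 0x111115111, 0x111115122,
  0x111115113, 0x111115311, 0x115115111, 0x122115111, 0x113115111, 0x311115111,
  0x115122111, 0x115113111, 0x115311111, 0x511111511, 0x111111511, 0x311111511,
  0x131111511, 0x511111131, 0x511111311, 0x511111111, 0x511111113, 0x111511131,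
  0x111511311, 0x111511111, 0x111511113, 0x511511111, 0x311511111, 0x131511111,
  0x511311111, 0x511131111, 0x151111151, 0x122111151, 0x221111151, 0x111111151,
  0x311111151, 0x113111151, 0x151111111, 0x151111221, 0x151111122, 0x151111311,
  0x151111113, 0x111151151, 0x111221151, 0x111122151, 0x111311151, 0x111113151,
  0x111151111, 0x111151221, 0x111151122, 0x111151311, 0x111151113, 0x151151111,
  0x122151111, 0x221151111, 0x311151111, 0x113151111, 0x151122111, 0x151221111,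
  0x151311111, 0x151113111, 0x212311124, 0x124311212, 0x212113421, 0x112112411,
  0x421113212, 0x311124212, 0x113421212, 0x212124311, 0x124212311, 0x112411112,
  0x212421113, 0x411112112, 0x421212113, 0x213213411, 0x213411213, 0x114312312,
  0x411213213, 0x312114312, 0x312312114, 0x113212421, 0x311212124, 0x111131511,
  0x111311511, 0x111113511, 0x111511511, 0x111122115, 0x111113115, 0x111115115]

/-- The shortest paths for the weights, as a bit mask. -/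
def sms : List ℕ := [
  0x855450a8568946489132244f, 0x950452a05489464e9132244b, 0x851450a05689464e9132244b,
  0x855050a856094648913e244b, 0x950450a952884648b932244d, 0x855650895228464899362449,
  0x854450a852894648b932244d, 0x855650a85209464899362449, 0x845450a8568906489132744d,
  0x857450a05689064a91323449, 0x857452a04489164a91323449, 0x855450a9528846489132244f,
  0x854450a952884648b932244d, 0x855650a95208464899362449, 0x855452a0548946489132244f,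
  0x851452a05489464e9132244b, 0x845150a8568946489132244f, 0x845150a856094648913e244b,
  0x857452a05489064a91323449, 0x845150a8568906489132744d, 0x855452a15088464891f2244e,
  0x845150a952c84648917a244a, 0x845152a05489c64891b2644c, 0x855050a856c84648917a244a,
  0x845450a85489c64891b2644c, 0x855450a95088464891f2244e, 0x855050a952c84648917a244a,
  0x855452a05488464891f2244e, 0x845150a856c84648917a244a, 0x845452a05489c64891b2644c,
  0x845150a85489c64891b2644c, 0x855450884488464891f225ce, 0x950450a8568946489132244f,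
  0x950450a05689464e9132244b, 0x85545088562946489132244f, 0x8550508856294648913e244b,
  0x950450a852894648b932244d, 0x855650885229464899362449, 0x855450a8468916489132244f,
  0x845450a8468916489132744d, 0x857450a04689164a91323449, 0x8554508846894648913225ce,
  0x851450ac4689464c913224ca, 0x854450885e894648b132254c, 0x950450ac4689164c913224ca,
  0x950450885e294648b132254c, 0x950450ac4689464c913224ca, 0x8554508846294648913225ce,
  0x950450885e894648b132254c, 0x854450885e294648b132254c, 0x8554508846891648913225ce,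
  0x851450ac4689164c913224ca, 0x851450a15288464e9132244b, 0x950452a150884648b932244d,
  0x854452a050894648b932244d, 0x854452a150884648b932244d, 0x851452a15088464e9132244b,
  0x855452a1508846489132244f, 0x845150a9528846489132244f, 0x845152a0548946489132244f,
  0x950452a15088464891f2244e, 0x950450ac4488464c917224ca, 0x950450885c884648b1b2254c,
  0x950450a95088464891f2244e, 0x950452a05488464891f2244e, 0x855050a846091648913e244b,
  0x84545088562906489132744d, 0x950450a15288464e9132244b, 0x950450a9528846489132244f,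
  0x85545089522846489132244f, 0x950452a050894648b932244d, 0x950452a0548946489132244f,
  0x84515088562946489132244f, 0x855452a0448916489132244f, 0x845150a8468916489132244f,
  0x845150a846091648913e244b, 0x84515088562906489132744d, 0x8451508846894648913225ce,
  0x95045088562946489132244f, 0x950450a8468916489132244f, 0x85545088462916489132244f,
  0x8550508846291648913e244b, 0x84545088462916489132744d, 0x8451508846291648913225ce,
  0x8451508846294648913225ce, 0x8451508846891648913225ce, 0x950450a15288464a99322449,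
  0x950452a05089464a99322449, 0x845150885629064891363449, 0x845150a84609164891363449,
  0x950452a1508846489132244f, 0x950452a15088464a99322449, 0x845150a85609064891363449,
  0x851452a15088464c9172244a, 0x854452a150884648b1b2244c, 0x950452a05488464c9172244a,
  0x950450a950884648b1b2244c, 0x950452a15088464c9172244a, 0x950452a150884648b1b2244c,
  0x854450a950884648b1b2244c, 0x851452a05488464c9172244a, 0x950450a05289464a99322449,
  0x84515088462916489132244f, 0x845150884629164891363449, 0x8451508846294648913a24ca,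
  0x84515088468916489132654c, 0x8550508846291648913a24ca, 0x84545088462916489132654c,
  0x8550508846294648913a24ca, 0x8451508846291648913a24ca, 0x84545088468916489132654c,
  0x84515088462916489132654c, 0x91045088ca236649a132252c, 0x910450c4479912649132249a,
  0x8451122274888e4895924c4c, 0x845111b9104c4648934b244a, 0x863cd2204489125291321649,
  0x8dc2708912204648c926a449, 0x8451108844888f4891924d0c, 0x845110a844899e4891b24c4c,
  0x844458884a212648a132452c, 0x854450884e213648b132252c, 0x84511088444c46c8914b248a,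
  0x84511088566c4648916b244a, 0x8514508c4639124c9132249a, 0xc510508446191244912a249a,
  0x91045088c8884749a192250c, 0x91045089da884649a132254c, 0x84445a2250888648a592444c,
  0x845452235088c6489592644c, 0x910450c4448846e49152248a, 0x910452e444894664913224ca,
  0x845153a110c84648935a244a, 0xc51051a110484644934a244a, 0x855053a110c84648935a244a,
  0x84537088522146489926a449, 0x844274885221064889269449, 0x8471d0a04689124a91321649,
  0xa430d0a04609124291261649, 0x972452204489165291323449, 0x862456205089065289321449,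
  0x972452205489065291323449, 0x9d06508912284648c9362449, 0xad0250a112084642c9262449,
  0x9d0650a912084648c9362449, 0x8451108846211248912b249a, 0x8550508846211248913a249a,
  0x8554508846211248913225be, 0x8451508846211248913a249a, 0x9504508846211248913225be,
  0x8451108856214648912fa44b, 0x8451108846214648912b24ca, 0x8451108846211648912b24ca,
  0x84511089526c4648916b244a, 0x845110a84689124891325e4d, 0x845110884689124891324d4c,
  0x845110884629124891324d4c, 0x845112a044899e4891b24c4c, 0x845110884621124891269649,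
  0x845110a84609124891361649, 0x845110884629124891361649, 0x8471d2a04489124a91321649,
  0x84511088562106489126b449, 0x84511088462116489126b449, 0x84537089522046489926a449,
  0x91045221108846649352244a, 0x855452211088464897d2244e, 0x950452211088464c9352244a,
  0x851053a110c8464c935a244a, 0x910452e444884664917224ca, 0x91045221508846649172244a,
  0x91045220548946769132244b, 0x910452e444891664913224ca, 0x91045089d8884649a1b2254c,
  0x910452a110884649a1b2244c, 0x910450a912884649e932244d, 0x91045089da284649a132254c,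
  0x9104522110884652c9322449, 0x910452a11088464ac9322449, 0x9d0650a11208464ac9362449,
  0x910452215088465299322449, 0x972452205089065299323449, 0xc5105084444846c4914a248a,
  0x8550508844c846c8915a248a, 0x8514508c448846cc9152248a, 0x85545088448847c891d2258e,
  0x9504508c448846cc9152248a, 0x8451508844c846c8915a248a, 0xe51050a056094646912e244b,
  0xc51050a056484644916a244a, 0xc51050a446094644912a24ca, 0xc51050a152484644916a244a,
  0xc51050a446091644912a24ca, 0x8444588848888748a192450c, 0x854450884c884748b192250c,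
  0x845450884488c7489192650c, 0x950450884c884748b192250c, 0x845150884488c7489192650c,
  0x84445ca852890648a932544d, 0x844458a850898648a1b2444c, 0x844458885a890648a132454c,
  0x84445aa050898648a1b2444c, 0x844458885a290648a132454c, 0xa42254a05209064289261449,
  0x844654a85209064889361449, 0x846454a05289064a89321449, 0x846456a05089064a89321449,
  0x844654885229064889361449, 0xa53050a05609064291263449, 0xa51250a05209464299262449,
  0xa51250a15208464299262449, 0xa53050a04609164291263449, 0x9504508846294648913225ce,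
  0x8550508952284648913e244b, 0x845152a05488464891f2244e, 0x845152a15088464891f2244e,
  0x851452a04489164e9132244b, 0x845452a0448916489132744d, 0x8544508952284648b932244d,
  0x845152a0548906489132744d, 0x845150a952084648913e244b, 0x9504508952284648b932244d,
  0x9504508852294648b932244d, 0x950452a04489164e9132244b, 0x950450a04689164e9132244b,
  0x845152a1508846489132244f, 0x95045089522846489132244f, 0x84515089522846489132244f,
  0x950452a0448916489132244f, 0x845152a0448916489132244f, 0x95045088462916489132244f,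
  0x845150a95088464891f2244e, 0x9504508846891648913225ce, 0x844452235088c648b592644c,
  0x9504522110884648b592244c, 0x845152235088c6489592644c, 0x9104522110884649a592244c,
  0x84545088462112489132652c, 0x84515088462112489132652c, 0x845110884621124891324d2c]

/-- The paths with given ends, with their edges. -/
def groupsD : List (List (ℕ × List ℕ)) := [
  [(0, [0, 1, 2]), (1, [3, 4, 5]), (2, [6, 7, 8])],
  [(3, [0]), (4, [3, 4, 5, 2, 1]), (5, [6, 7, 8, 2, 1])],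
  [(6, [0, 1]), (7, [3, 4, 5, 2]), (8, [6, 7, 8, 2])],
  [(9, [0, 1, 2, 5, 4]), (10, [3]), (11, [6, 7, 8, 5, 4])],
  [(12, [0, 1, 2, 5]), (13, [3, 4]), (14, [6, 7, 8, 5])],
  [(15, [0, 1, 2, 8, 7]), (16, [3, 4, 5, 8, 7]), (17, [6])],
  [(18, [0, 1, 2, 8]), (19, [3, 4, 5, 8]), (20, [6, 7])],
  [(21, [2, 1]), (22, [5, 4, 3, 0]), (23, [8, 7, 6, 0])],
  [(24, [2]), (25, [5, 4, 3, 0, 1]), (26, [8, 7, 6, 0, 1])],
  [(27, [2, 1, 0, 3]), (28, [5, 4]), (29, [8, 7, 6, 3])],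
  [(30, [2, 1, 0, 3, 4]), (31, [5]), (32, [8, 7, 6, 3, 4])],
  [(33, [2, 1, 0, 6]), (34, [5, 4, 3, 6]), (35, [8, 7])],
  [(36, [2, 1, 0, 6, 7]), (37, [5, 4, 3, 6, 7]), (38, [8])],
  [(39, [0, 3, 4, 5, 2]), (40, [0, 6, 7, 8, 2]), (41, [1])],
  [(42, [0, 3]), (43, [0, 6, 7, 8, 5, 4]), (44, [1, 2, 5, 4]), (45, [1, 2, 8, 7, 6, 3])],
  [(46, [0, 3, 4]), (47, [0, 6, 7, 8, 5]), (48, [1, 2, 5]), (49, [1, 2, 8, 7, 6, 3, 4])],
  [(50, [0, 3, 4, 5, 8, 7]), (51, [0, 6]), (52, [1, 2, 5, 4, 3, 6]), (53, [1, 2, 8, 7])],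
  [(54, [0, 3, 4, 5, 8]), (55, [0, 6, 7]), (56, [1, 2, 5, 4, 3, 6, 7]), (57, [1, 2, 8])],
  [(58, [2, 5, 4]), (59, [2, 8, 7, 6, 3]), (60, [1, 0, 3]), (61, [1, 0, 6, 7, 8, 5, 4])],
  [(62, [2, 5]), (63, [2, 8, 7, 6, 3, 4]), (64, [1, 0, 3, 4]), (65, [1, 0, 6, 7, 8, 5])],
  [(66, [2, 5, 4, 3, 6]), (67, [2, 8, 7]), (68, [1, 0, 3, 4, 5, 8, 7]), (69, [1, 0, 6])],
  [(70, [2, 5, 4, 3, 6, 7]), (71, [2, 8]), (72, [1, 0, 3, 4, 5, 8]), (73, [1, 0, 6, 7])],
  [(74, [3, 0, 1, 2, 5]), (75, [3, 6, 7, 8, 5]), (76, [4])],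
  [(77, [3, 0, 1, 2, 8, 7]), (78, [3, 6]), (79, [4, 5, 2, 1, 0, 6]), (80, [4, 5, 8, 7])],
  [(81, [3, 0, 1, 2, 8]), (82, [3, 6, 7]), (83, [4, 5, 2, 1, 0, 6, 7]), (84, [4, 5, 8])],
  [(85, [5, 2, 1, 0, 6]), (86, [5, 8, 7]), (87, [4, 3, 0, 1, 2, 8, 7]), (88, [4, 3, 6])],
  [(89, [5, 2, 1, 0, 6, 7]), (90, [5, 8]), (91, [4, 3, 0, 1, 2, 8]), (92, [4, 3, 6, 7])],
  [(93, [6, 0, 1, 2, 8]), (94, [6, 3, 4, 5, 8]), (95, [7])]]

/-- A search tree. -/
inductive T : Type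
  | L (k : ℕ) : T
  | D (i : ℕ) : T
  | B (o : ℕ) (y n : T) : T

def opt (o : ℕ) : List (Fin 8) := opts.getD o []
def pidx (o : ℕ) : ℕ := pidxs.getD o 0
def ends (i : ℕ) : Fin 8 × Fin 8 := endss.getD i (0, 0)
def inf (o : ℕ) : List ℕ := infs.getD o []
def cm (o : ℕ) : ℕ := cms.getD o 0
def pm (i : ℕ) : ℕ := pms.getD i 0
def eds (o : ℕ) : List ℕ := edss.getD o []
def wt (k : ℕ) : ℕ := wts.getD k 0
def sm (k : ℕ) : ℕ := sms.getD k 0

/-- the number of an edge -/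
def eidx (a b : Fin 8) : ℕ := if edges.idxOf (a, b) < 9 then edges.idxOf (a, b) else
  edges.idxOf (b, a)

/-- the consecutive pairs -/
def cons2 : List (Fin 8) → List ℕ
  | [] => []
  | [_] => []
  | a :: b :: l => eidx a b :: cons2 (b :: l)

/-- the weight of an edge -/
def dg (w e : ℕ) : ℕ := (w >>> (4 * e)) &&& 15

/-- the weight of a path -/
def ln (w : ℕ) (es : List ℕ) : ℕ := (es.map (dg w)).sum

/-- the weight of an edge -/
def dig (k e : ℕ) : ℕ := dg (wt k) e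

/-- the weight of a path -/
def len (k o : ℕ) : ℕ := ln (wt k) (eds o)

/-- the paths with given ends -/
def groups : List (List (ℕ × List ℕ)) := (List.range 28).map fun i =>
  ((List.range 96).filter fun o => pidx o == i).map fun o => (o, eds o)

/-- the check of a weight function -/
def chkW (gs : List (List (ℕ × List ℕ))) (w s : ℕ) : Bool := gs.all fun g => g.all fun a =>
  !(s.testBit a.1) || g.all fun b => Nat.ble (ln w a.2) (ln w b.2)

def full : ℕ := 2 ^ 96 - 1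

def M1 (o o' : ℕ) : Bool := (inf o).all fun p => pidx p != pidx o' || p == o'

/-- the check of the tree -/
def chk : T → ℕ → Bool
  | .L k, A => decide (k < 240) && (A &&& sm k == A)
  | .D i, A => decide (i < 28) && (A &&& pm i == 0)
  | .B o y n, A => chk y (A &&& cm o) && chk n (A &&& (full ^^^ 2 ^ o))

/-- neighbours -/
def nb (u : Fin 8) : List (Fin 8) :=
  (List.finRange 8).filter fun v => decide ((u, v) ∈ edges ∨ (v, u) ∈ edges)

/-- all paths with at most `n` edges starting in `u` and avoiding `vis` -/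
def go : ℕ → List (Fin 8) → Fin 8 → List (List (Fin 8))
  | 0, _, u => [[u]]
  | n + 1, vis, u => [u] :: ((nb u).filter fun x => decide (x ∉ u :: vis)).flatMap
      fun x => (go n (u :: vis) x).map fun l => u :: l

/-! ### The checks -/

theorem D_end : ∀ p < 96, (opt p).head? = some (ends (pidx p)).1 ∧
    (opt p).getLast? = some (ends (pidx p)).2 ∧ pidx p < 28 := by decide +kernel

theorem D_pm : ∀ p < 96, (pm (pidx p)).testBit p = true := by decide +kernel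

theorem D_ends_inj : ∀ i < 28, ∀ j < 28, ends i = ends j → i = j := by decide +kernel

theorem D_ends_surj : ∀ u v : Fin 8, u < v → ∃ i < 28, ends i = (u, v) := by decide +kernel

theorem D_ends_lt : ∀ i < 28, (ends i).1 < (ends i).2 := by decide +kernel

theorem D_opts : opts.length = 96 ∧ opts.Nodup := by decide +kernel

theorem D_inf : ∀ o < 96, ∀ p ∈ inf o, p < 96 ∧
    (opt p <:+: opt o ∨ (opt p).reverse <:+: opt o) := by decide +kernel

theorem D_cm : ∀ o < 96, ∀ o' < 96, (cm o).testBit o' = true ∨ M1 o o' = false ∨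
    M1 o' o = false := by decide +kernel

theorem D_eds : ∀ o < 96, cons2 (opt o) = eds o := by decide +kernel

theorem D_groups : groupsD = groups := by decide +kernel

theorem D_wts : wts.length = 240 ∧ sms.length = 240 := by decide +kernel

theorem D_chkW : ((wts.zip sms).all fun a => chkW groupsD a.1 a.2) = true := by decide +kernel

theorem D_posW : (wts.all fun w => (List.range 9).all fun e => decide (0 < dg w e)) = true := by
  decide +kernel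

theorem D_go : ((List.finRange 8).all fun u => (go 7 [] u).all fun l =>
    match l.getLast? with
    | none => true
    | some v => decide (v ≤ u) || decide (l ∈ opts)) = true := by decide +kernel


/-- The search tree. -/
def tree : T :=
  (.B 49 (.L 112) (.B 56 (.L 113) (.B 61 (.L 114) (.B 68 (.L 115) (.B 83 (.L 116) (.B 87 (.L 117)
  (.B 43 (.B 71 (.B 40 (.B 11 (.L 118) (.D 3)) (.B 6 (.L 119) (.B 11 (.B 8 (.L 118) (.D 2)) (.D
  3)))) (.B 11 (.B 73 (.L 114) (.D 21)) (.D 3))) (.B 45 (.B 90 (.B 75 (.B 5 (.L 120) (.D 1)) (.B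
  13 (.L 121) (.B 5 (.B 14 (.L 120) (.D 4)) (.D 1)))) (.B 5 (.B 92 (.L 112) (.D 26)) (.D 1))) (.B
  50 (.B 62 (.B 39 (.B 16 (.L 122) (.D 5)) (.B 6 (.L 123) (.B 16 (.B 7 (.L 122) (.D 2)) (.D 5))))
  (.B 16 (.B 64 (.L 115) (.D 19)) (.D 5))) (.B 52 (.B 90 (.B 82 (.L 124) (.B 19 (.B 4 (.L 125) (.D
  1)) (.B 4 (.B 20 (.L 124) (.D 6)) (.D 1)))) (.B 4 (.B 92 (.L 113) (.D 26)) (.D 1))) (.B 63 (.B
  51 (.B 40 (.B 13 (.L 126) (.D 4)) (.B 21 (.L 127) (.B 32 (.B 23 (.L 126) (.D 7)) (.D 10)))) (.B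
  53 (.L 112) (.D 16))) (.B 65 (.B 78 (.B 75 (.B 6 (.L 128) (.D 2)) (.B 28 (.L 129) (.B 26 (.B 29
  (.L 128) (.D 9)) (.D 8)))) (.B 26 (.B 80 (.L 114) (.D 23)) (.D 8))) (.B 70 (.B 42 (.B 39 (.B 20
  (.L 130) (.D 6)) (.B 21 (.L 131) (.B 37 (.B 22 (.L 130) (.D 7)) (.D 12)))) (.B 44 (.L 113) (.D
  14))) (.B 72 (.B 78 (.B 86 (.L 132) (.B 34 (.B 6 (.L 133) (.D 2)) (.B 25 (.B 35 (.L 134) (.D
  11)) (.D 8)))) (.B 25 (.B 80 (.L 115) (.D 23)) (.D 8))) (.B 77 (.B 62 (.B 46 (.L 135) (.B 12 (.B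
  15 (.L 136) (.D 5)) (.B 15 (.B 13 (.L 135) (.D 4)) (.D 5)))) (.B 64 (.L 117) (.D 19))) (.B 79
  (.B 71 (.B 55 (.L 137) (.B 18 (.B 9 (.L 138) (.D 3)) (.B 9 (.B 20 (.L 137) (.D 6)) (.D 3)))) (.B
  73 (.L 116) (.D 21))) (.B 89 (.B 42 (.B 58 (.L 139) (.B 27 (.B 20 (.L 140) (.D 6)) (.B 36 (.B 28
  (.L 141) (.D 9)) (.D 12)))) (.B 44 (.L 116) (.D 14))) (.B 91 (.B 51 (.B 67 (.L 142) (.B 33 (.B
  13 (.L 143) (.D 4)) (.B 30 (.B 35 (.L 144) (.D 11)) (.D 10)))) (.B 53 (.L 117) (.D 16))) (.B 4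
  (.B 16 (.L 145) (.B 90 (.B 78 (.B 19 (.B 53 (.L 146) (.D 16)) (.B 53 (.L 147) (.D 16))) (.B 80
  (.L 148) (.D 23))) (.B 92 (.B 53 (.L 149) (.D 16)) (.D 26)))) (.B 16 (.B 62 (.B 42 (.B 6 (.B 53
  (.L 150) (.D 16)) (.B 53 (.B 7 (.L 151) (.D 2)) (.D 16))) (.B 44 (.L 152) (.D 14))) (.B 64 (.B
  53 (.L 153) (.D 16)) (.D 19))) (.B 3 (.B 11 (.B 71 (.B 51 (.B 6 (.B 44 (.L 154) (.D 14)) (.B 44
  (.B 8 (.L 155) (.D 2)) (.D 14))) (.B 53 (.L 156) (.D 16))) (.B 73 (.B 44 (.L 157) (.D 14)) (.D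
  21))) (.B 9 (.B 15 (.L 158) (.B 71 (.B 55 (.B 80 (.L 154) (.D 23)) (.B 51 (.B 80 (.L 159) (.D
  23)) (.B 53 (.L 160) (.D 16)))) (.B 73 (.B 80 (.L 161) (.D 23)) (.D 21)))) (.B 15 (.B 62 (.B 46
  (.B 80 (.L 150) (.D 23)) (.B 42 (.B 80 (.L 162) (.D 23)) (.B 44 (.L 163) (.D 14)))) (.B 64 (.B
  80 (.L 164) (.D 23)) (.D 19))) (.B 25 (.B 78 (.B 37 (.L 165) (.B 86 (.B 73 (.L 166) (.D 21)) (.B
  82 (.L 167) (.B 73 (.B 84 (.L 168) (.D 24)) (.D 21))))) (.B 80 (.L 132) (.D 23))) (.B 37 (.B 42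
  (.B 46 (.B 58 (.B 73 (.L 169) (.D 21)) (.B 60 (.L 170) (.D 18))) (.B 48 (.B 73 (.L 171) (.D 21))
  (.D 15))) (.B 44 (.L 172) (.D 14))) (.B 24 (.B 32 (.B 51 (.B 55 (.B 67 (.B 64 (.L 173) (.D 19))
  (.B 64 (.L 174) (.D 19))) (.B 57 (.B 64 (.L 175) (.D 19)) (.D 17))) (.B 53 (.L 176) (.D 16)))
  (.B 30 (.B 51 (.B 67 (.B 92 (.L 175) (.D 26)) (.B 36 (.L 177) (.B 55 (.L 178) (.B 92 (.B 57 (.L
  179) (.D 17)) (.D 26))))) (.B 53 (.L 142) (.D 16))) (.B 36 (.B 42 (.B 58 (.B 92 (.L 171) (.D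
  26)) (.B 46 (.L 180) (.B 92 (.B 48 (.L 181) (.D 15)) (.D 26)))) (.B 44 (.L 139) (.D 14))) (.B 39
  (.B 94 (.L 182) (.B 78 (.B 90 (.B 19 (.B 34 (.L 182) (.B 35 (.L 183) (.D 11))) (.B 34 (.B 20 (.L
  184) (.D 6)) (.B 20 (.B 35 (.L 185) (.D 11)) (.D 6)))) (.B 92 (.L 186) (.D 26))) (.B 80 (.L 187)
  (.D 23)))) (.B 94 (.B 42 (.B 62 (.B 6 (.B 21 (.L 188) (.B 22 (.L 189) (.D 7))) (.B 21 (.B 7 (.L
  190) (.D 2)) (.B 7 (.B 22 (.L 182) (.D 7)) (.D 2)))) (.B 64 (.L 191) (.D 19))) (.B 44 (.L 192)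
  (.D 14))) (.B 54 (.B 66 (.L 182) (.B 6 (.B 34 (.B 58 (.L 189) (.L 191)) (.B 58 (.B 78 (.B 1 (.L
  23) (.D 0)) (.B 80 (.L 28) (.D 23))) (.B 78 (.B 1 (.L 26) (.D 0)) (.B 80 (.L 21) (.D 23))))) (.B
  78 (.B 1 (.B 7 (.B 67 (.L 183) (.D 20)) (.D 2)) (.D 0)) (.B 80 (.B 1 (.B 7 (.L 122) (.D 2)) (.D
  0)) (.D 23))))) (.B 66 (.B 19 (.B 42 (.B 57 (.L 190) (.D 17)) (.B 44 (.L 125) (.D 14))) (.B 21
  (.B 42 (.B 82 (.L 46) (.B 1 (.B 84 (.L 42) (.D 24)) (.D 0))) (.B 82 (.B 44 (.L 44) (.D 14)) (.B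
  1 (.B 44 (.B 84 (.L 51) (.D 24)) (.D 14)) (.D 0)))) (.B 82 (.B 1 (.B 22 (.L 186) (.D 7)) (.D 0))
  (.B 1 (.B 22 (.B 84 (.L 184) (.D 24)) (.D 7)) (.D 0))))) (.B 40 (.B 75 (.L 193) (.B 78 (.B 90
  (.B 13 (.B 28 (.L 185) (.B 29 (.L 194) (.D 9))) (.B 28 (.B 14 (.L 195) (.D 4)) (.B 14 (.B 29 (.L
  193) (.D 9)) (.D 4)))) (.B 92 (.L 196) (.D 26))) (.B 80 (.L 197) (.D 23)))) (.B 75 (.B 51 (.B 71
  (.B 6 (.B 21 (.L 198) (.B 23 (.L 199) (.D 7))) (.B 21 (.B 8 (.L 200) (.D 2)) (.B 8 (.B 23 (.L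
  193) (.D 7)) (.D 2)))) (.B 73 (.L 201) (.D 21))) (.B 53 (.L 202) (.D 16))) (.B 47 (.B 59 (.L
  193) (.B 6 (.B 28 (.B 67 (.B 78 (.L 24) (.B 80 (.L 30) (.D 23))) (.B 78 (.L 29) (.B 80 (.L 22)
  (.D 23)))) (.B 67 (.B 2 (.B 29 (.L 199) (.D 9)) (.D 0)) (.B 2 (.B 29 (.L 201) (.D 9)) (.D 0))))
  (.B 78 (.B 2 (.B 8 (.B 58 (.L 195) (.D 18)) (.D 2)) (.D 0)) (.B 80 (.B 2 (.B 8 (.L 118) (.D 2))
  (.D 0)) (.D 23))))) (.B 59 (.B 13 (.B 21 (.B 51 (.B 86 (.L 43) (.L 48)) (.B 86 (.B 53 (.L 49)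
  (.D 16)) (.B 53 (.L 45) (.D 16)))) (.B 86 (.B 2 (.B 23 (.L 194) (.D 7)) (.D 0)) (.B 2 (.B 23 (.L
  196) (.D 7)) (.D 0)))) (.B 51 (.B 2 (.B 14 (.B 48 (.L 200) (.D 15)) (.D 4)) (.D 0)) (.B 53 (.B 2
  (.B 14 (.L 120) (.D 4)) (.D 0)) (.D 16)))) (.B 74 (.B 93 (.L 203) (.B 51 (.B 71 (.B 18 (.B 33
  (.L 203) (.B 35 (.L 204) (.D 11))) (.B 33 (.B 20 (.L 205) (.D 6)) (.B 20 (.B 35 (.L 198) (.D
  11)) (.D 6)))) (.B 73 (.L 206) (.D 21))) (.B 53 (.L 207) (.D 16)))) (.B 93 (.B 42 (.B 62 (.B 12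
  (.B 27 (.L 203) (.B 28 (.L 208) (.D 9))) (.B 27 (.B 13 (.L 209) (.D 4)) (.B 13 (.B 28 (.L 188)
  (.D 9)) (.D 4)))) (.B 64 (.L 210) (.D 19))) (.B 44 (.L 211) (.D 14))) (.B 81 (.B 85 (.L 203) (.B
  12 (.B 51 (.B 86 (.L 204) (.D 25)) (.B 53 (.L 136) (.D 16))) (.B 33 (.B 46 (.L 210) (.B 48 (.L
  209) (.D 15))) (.B 46 (.B 51 (.B 0 (.L 13) (.D 0)) (.B 53 (.L 5) (.D 16))) (.B 51 (.B 0 (.B 48
  (.L 7) (.D 15)) (.D 0)) (.B 0 (.B 48 (.B 53 (.L 37) (.D 16)) (.D 15)) (.D 0))))))) (.B 85 (.B 18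
  (.B 42 (.B 84 (.L 208) (.D 24)) (.B 44 (.L 138) (.D 14))) (.B 27 (.B 55 (.L 206) (.B 57 (.L 205)
  (.D 17))) (.B 42 (.B 55 (.B 0 (.L 18) (.D 0)) (.B 0 (.B 57 (.L 9) (.D 17)) (.D 0))) (.B 55 (.B
  44 (.L 10) (.D 14)) (.B 0 (.B 44 (.B 57 (.L 40) (.D 17)) (.D 14)) (.D 0)))))) (.B 7 (.B 21 (.B
  90 (.B 19 (.B 42 (.B 78 (.B 67 (.L 108) (.D 20)) (.B 80 (.L 104) (.D 23))) (.B 78 (.B 44 (.B 67
  (.L 106) (.D 20)) (.D 14)) (.B 80 (.B 44 (.L 109) (.D 14)) (.D 23)))) (.B 78 (.B 42 (.B 51 (.B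
  67 (.L 41) (.D 20)) (.B 53 (.L 47) (.D 16))) (.B 51 (.B 44 (.B 67 (.L 50) (.D 20)) (.D 14)) (.B
  53 (.B 44 (.L 147) (.D 14)) (.D 16)))) (.B 42 (.B 51 (.B 80 (.L 77) (.D 23)) (.B 80 (.B 53 (.L
  104) (.D 16)) (.D 23))) (.B 51 (.B 80 (.B 44 (.L 85) (.D 14)) (.D 23)) (.B 80 (.B 44 (.B 53 (.L
  148) (.D 16)) (.D 14)) (.D 23)))))) (.B 42 (.B 51 (.B 92 (.L 46) (.D 26)) (.B 92 (.B 53 (.L 212)
  (.D 16)) (.D 26))) (.B 51 (.B 92 (.B 44 (.L 44) (.D 14)) (.D 26)) (.B 92 (.B 53 (.B 44 (.L 149)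
  (.D 14)) (.D 16)) (.D 26))))) (.B 78 (.B 90 (.B 1 (.B 22 (.B 55 (.B 67 (.L 185) (.D 20)) (.D
  17)) (.D 7)) (.D 0)) (.B 92 (.B 1 (.B 22 (.L 186) (.D 7)) (.D 0)) (.D 26))) (.B 80 (.B 1 (.B 22
  (.L 187) (.D 7)) (.D 0)) (.D 23)))) (.B 19 (.B 34 (.B 42 (.B 62 (.B 57 (.L 188) (.D 17)) (.B 64
  (.L 191) (.D 19))) (.B 44 (.L 192) (.D 14))) (.B 42 (.B 62 (.B 51 (.B 78 (.B 1 (.B 57 (.L 3) (.D
  17)) (.D 0)) (.B 80 (.B 57 (.L 17) (.D 17)) (.D 23))) (.B 78 (.B 53 (.L 35) (.D 16)) (.B 53 (.B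
  80 (.L 150) (.D 23)) (.D 16)))) (.B 51 (.B 78 (.B 64 (.B 1 (.L 26) (.D 0)) (.D 19)) (.B 64 (.B
  80 (.L 21) (.D 23)) (.D 19))) (.B 78 (.B 53 (.B 64 (.L 213) (.D 19)) (.D 16)) (.B 53 (.B 64 (.B
  80 (.L 153) (.D 23)) (.D 19)) (.D 16))))) (.B 51 (.B 78 (.B 44 (.B 1 (.L 65) (.D 0)) (.D 14))
  (.B 44 (.B 80 (.L 75) (.D 23)) (.D 14))) (.B 78 (.B 44 (.B 53 (.L 106) (.D 16)) (.D 14)) (.B 44
  (.B 53 (.B 80 (.L 152) (.D 23)) (.D 16)) (.D 14)))))) (.B 22 (.B 78 (.B 34 (.B 58 (.B 82 (.L 95)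
  (.B 84 (.L 100) (.D 24))) (.B 82 (.L 97) (.B 84 (.L 93) (.D 24)))) (.B 90 (.B 58 (.B 67 (.L 31)
  (.B 1 (.L 27) (.D 0))) (.B 67 (.B 1 (.L 25) (.D 0)) (.B 1 (.L 20) (.D 0)))) (.B 58 (.B 67 (.B 92
  (.B 1 (.L 61) (.D 0)) (.D 26)) (.B 92 (.B 1 (.L 95) (.D 0)) (.D 26))) (.B 67 (.B 92 (.B 1 (.L
  63) (.D 0)) (.D 26)) (.B 92 (.B 1 (.L 97) (.D 0)) (.D 26)))))) (.B 58 (.B 67 (.B 80 (.B 1 (.L
  28) (.D 0)) (.D 23)) (.B 80 (.B 1 (.L 214) (.D 0)) (.D 23))) (.B 67 (.B 80 (.B 1 (.L 21) (.D 0))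
  (.D 23)) (.B 80 (.B 1 (.L 215) (.D 0)) (.D 23))))) (.B 34 (.B 42 (.B 62 (.B 55 (.B 82 (.L 1) (.B
  84 (.L 15) (.D 24))) (.B 82 (.B 57 (.L 33) (.D 17)) (.B 1 (.B 57 (.B 84 (.L 2) (.D 24)) (.D 17))
  (.D 0)))) (.B 55 (.B 82 (.B 64 (.L 97) (.D 19)) (.B 64 (.B 84 (.L 93) (.D 24)) (.D 19))) (.B 82
  (.B 64 (.B 57 (.L 67) (.D 17)) (.D 19)) (.B 64 (.B 1 (.B 57 (.B 84 (.L 52) (.D 24)) (.D 17)) (.D
  0)) (.D 19))))) (.B 55 (.B 90 (.B 44 (.L 216) (.D 14)) (.B 44 (.B 92 (.L 172) (.D 26)) (.D 14)))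
  (.B 82 (.B 44 (.B 57 (.L 44) (.D 17)) (.D 14)) (.B 44 (.B 1 (.B 57 (.B 84 (.L 51) (.D 24)) (.D
  17)) (.D 0)) (.D 14))))) (.B 6 (.B 14 (.B 28 (.B 51 (.B 71 (.B 42 (.B 78 (.B 48 (.L 8) (.D 15))
  (.B 48 (.B 80 (.L 19) (.D 23)) (.D 15))) (.B 78 (.B 44 (.L 39) (.D 14)) (.B 44 (.B 80 (.L 154)
  (.D 23)) (.D 14)))) (.B 42 (.B 78 (.B 73 (.L 29) (.D 21)) (.B 73 (.B 48 (.B 80 (.L 22) (.D 23))
  (.D 15)) (.D 21))) (.B 78 (.B 44 (.B 73 (.L 217) (.D 21)) (.D 14)) (.B 44 (.B 73 (.B 80 (.L 157)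
  (.D 23)) (.D 21)) (.D 14))))) (.B 42 (.B 78 (.B 53 (.L 66) (.D 16)) (.B 53 (.B 80 (.L 76) (.D
  23)) (.D 16))) (.B 78 (.B 53 (.B 44 (.L 82) (.D 14)) (.D 16)) (.B 53 (.B 44 (.B 80 (.L 156) (.D
  23)) (.D 14)) (.D 16))))) (.B 51 (.B 71 (.B 2 (.B 29 (.B 48 (.L 198) (.D 15)) (.D 9)) (.D 0))
  (.B 73 (.B 2 (.B 29 (.L 201) (.D 9)) (.D 0)) (.D 21))) (.B 53 (.B 2 (.B 29 (.L 202) (.D 9)) (.D
  0)) (.D 16)))) (.B 21 (.B 29 (.B 51 (.B 71 (.B 46 (.B 86 (.L 12) (.L 4)) (.B 86 (.B 2 (.B 48 (.L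
  6) (.D 15)) (.D 0)) (.B 2 (.B 48 (.L 36) (.D 15)) (.D 0)))) (.B 46 (.B 86 (.B 73 (.L 55) (.D
  21)) (.B 73 (.L 53) (.D 21))) (.B 86 (.B 73 (.B 2 (.B 48 (.L 54) (.D 15)) (.D 0)) (.D 21)) (.B
  73 (.B 2 (.B 48 (.L 70) (.D 15)) (.D 0)) (.D 21))))) (.B 46 (.B 90 (.B 53 (.L 218) (.D 16)) (.B
  53 (.B 92 (.L 176) (.D 26)) (.D 16))) (.B 86 (.B 53 (.B 2 (.B 48 (.L 49) (.D 15)) (.D 0)) (.D
  16)) (.B 53 (.B 2 (.B 48 (.L 45) (.D 15)) (.D 0)) (.D 16))))) (.B 12 (.B 27 (.B 51 (.B 71 (.B 82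
  (.B 86 (.L 198) (.D 25)) (.D 24)) (.B 73 (.L 206) (.D 21))) (.B 53 (.L 207) (.D 16))) (.B 71 (.B
  18 (.B 42 (.B 51 (.B 86 (.L 92) (.D 25)) (.B 53 (.L 88) (.D 16))) (.B 51 (.B 44 (.B 86 (.L 89)
  (.D 25)) (.D 14)) (.B 53 (.B 44 (.L 103) (.D 14)) (.D 16)))) (.B 51 (.B 42 (.B 78 (.B 86 (.L 8)
  (.D 25)) (.B 80 (.L 19) (.D 23))) (.B 78 (.B 44 (.B 86 (.L 39) (.D 25)) (.D 14)) (.B 80 (.B 44
  (.L 154) (.D 14)) (.D 23)))) (.B 42 (.B 78 (.B 53 (.L 66) (.D 16)) (.B 53 (.B 80 (.L 76) (.D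
  23)) (.D 16))) (.B 78 (.B 53 (.B 44 (.L 82) (.D 14)) (.D 16)) (.B 53 (.B 44 (.B 80 (.L 160) (.D
  23)) (.D 14)) (.D 16)))))) (.B 42 (.B 78 (.B 73 (.L 18) (.D 21)) (.B 73 (.B 80 (.L 219) (.D 23))
  (.D 21))) (.B 78 (.B 73 (.B 44 (.L 10) (.D 14)) (.D 21)) (.B 73 (.B 80 (.B 44 (.L 161) (.D 14))
  (.D 23)) (.D 21)))))) (.B 18 (.B 33 (.B 42 (.B 62 (.B 84 (.L 188) (.D 24)) (.B 64 (.L 210) (.D
  19))) (.B 44 (.L 211) (.D 14))) (.B 42 (.B 62 (.B 51 (.B 78 (.B 84 (.L 3) (.D 24)) (.B 80 (.L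
  17) (.D 23))) (.B 78 (.B 53 (.B 84 (.L 35) (.D 24)) (.D 16)) (.B 80 (.B 53 (.L 150) (.D 16)) (.D
  23)))) (.B 51 (.B 78 (.B 64 (.L 13) (.D 19)) (.B 64 (.B 80 (.L 220) (.D 23)) (.D 19))) (.B 78
  (.B 64 (.B 53 (.L 5) (.D 16)) (.D 19)) (.B 64 (.B 80 (.B 53 (.L 164) (.D 16)) (.D 23)) (.D
  19))))) (.B 51 (.B 78 (.B 44 (.L 65) (.D 14)) (.B 44 (.B 80 (.L 75) (.D 23)) (.D 14))) (.B 78
  (.B 44 (.B 53 (.L 81) (.D 16)) (.D 14)) (.B 44 (.B 53 (.B 80 (.L 163) (.D 23)) (.D 16)) (.D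
  14)))))) (.B 27 (.B 51 (.B 33 (.B 46 (.B 55 (.L 91) (.B 57 (.L 86) (.D 17))) (.B 55 (.B 48 (.L
  87) (.D 15)) (.B 48 (.B 57 (.L 101) (.D 17)) (.D 15)))) (.B 71 (.B 46 (.B 86 (.L 12) (.L 4)) (.B
  86 (.B 48 (.L 6) (.D 15)) (.B 48 (.L 36) (.D 15)))) (.B 46 (.B 86 (.B 73 (.L 55) (.D 21)) (.B 73
  (.L 53) (.D 21))) (.B 86 (.B 73 (.B 48 (.L 54) (.D 15)) (.D 21)) (.B 73 (.B 48 (.L 70) (.D 15))
  (.D 21)))))) (.B 46 (.B 86 (.B 53 (.L 5) (.D 16)) (.B 53 (.L 221) (.D 16))) (.B 86 (.B 53 (.B 48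
  (.L 37) (.D 15)) (.D 16)) (.B 53 (.B 48 (.L 222) (.D 15)) (.D 16))))) (.B 33 (.B 42 (.B 62 (.B
  55 (.B 82 (.L 1) (.B 84 (.L 15) (.D 24))) (.B 82 (.B 57 (.L 33) (.D 17)) (.B 57 (.B 84 (.L 2)
  (.D 24)) (.D 17)))) (.B 55 (.B 82 (.B 64 (.L 91) (.D 19)) (.B 64 (.B 84 (.L 56) (.D 24)) (.D
  19))) (.B 82 (.B 64 (.B 57 (.L 67) (.D 17)) (.D 19)) (.B 64 (.B 57 (.B 84 (.L 52) (.D 24)) (.D
  17)) (.D 19))))) (.B 55 (.B 82 (.B 44 (.L 223) (.D 14)) (.B 44 (.B 84 (.L 10) (.D 24)) (.D 14)))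
  (.B 82 (.B 44 (.B 57 (.L 224) (.D 17)) (.D 14)) (.B 44 (.B 57 (.B 84 (.L 40) (.D 24)) (.D 17))
  (.D 14))))) (.B 42 (.B 51 (.B 78 (.B 62 (.B 71 (.B 90 (.L 0) (.B 92 (.L 32) (.D 26))) (.B 90 (.B
  73 (.L 14) (.D 21)) (.B 73 (.B 92 (.L 71) (.D 26)) (.D 21)))) (.B 71 (.B 90 (.B 64 (.L 11) (.D
  19)) (.B 64 (.B 92 (.L 68) (.D 26)) (.D 19))) (.B 90 (.B 64 (.B 73 (.L 57) (.D 21)) (.D 19)) (.B
  64 (.B 73 (.B 92 (.L 90) (.D 26)) (.D 21)) (.D 19))))) (.B 62 (.B 71 (.B 80 (.L 16) (.D 23)) (.B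
  80 (.B 73 (.L 59) (.D 21)) (.D 23))) (.B 71 (.B 80 (.B 64 (.L 58) (.D 19)) (.D 23)) (.B 80 (.B
  64 (.B 73 (.L 225) (.D 21)) (.D 19)) (.D 23))))) (.B 78 (.B 62 (.B 90 (.B 53 (.L 34) (.D 16))
  (.B 53 (.B 92 (.L 78) (.D 26)) (.D 16))) (.B 90 (.B 53 (.B 64 (.L 69) (.D 19)) (.D 16)) (.B 53
  (.B 64 (.B 92 (.L 226) (.D 26)) (.D 19)) (.D 16)))) (.B 62 (.B 53 (.B 80 (.L 72) (.D 23)) (.D
  16)) (.B 53 (.B 80 (.B 64 (.L 227) (.D 19)) (.D 23)) (.D 16))))) (.B 51 (.B 78 (.B 71 (.B 90 (.B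
  44 (.L 38) (.D 14)) (.B 44 (.B 92 (.L 79) (.D 26)) (.D 14))) (.B 90 (.B 44 (.B 73 (.L 73) (.D
  21)) (.D 14)) (.B 44 (.B 73 (.B 92 (.L 228) (.D 26)) (.D 21)) (.D 14)))) (.B 71 (.B 44 (.B 80
  (.L 74) (.D 23)) (.D 14)) (.B 44 (.B 80 (.B 73 (.L 229) (.D 21)) (.D 23)) (.D 14)))) (.B 78 (.B
  90 (.B 44 (.B 53 (.L 80) (.D 16)) (.D 14)) (.B 44 (.B 53 (.B 92 (.L 230) (.D 26)) (.D 16)) (.D
  14))) (.B 44 (.B 53 (.B 80 (.L 102) (.D 23)) (.D 16)) (.D 14)))))))))) (.B 78 (.B 28 (.B 90 (.B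
  58 (.B 67 (.B 23 (.L 31) (.D 7)) (.B 23 (.L 27) (.D 7))) (.B 67 (.B 23 (.L 25) (.D 7)) (.B 23
  (.L 20) (.D 7)))) (.B 58 (.B 67 (.B 23 (.B 92 (.L 62) (.D 26)) (.D 7)) (.B 23 (.B 92 (.L 64) (.D
  26)) (.D 7))) (.B 67 (.B 23 (.B 92 (.L 63) (.D 26)) (.D 7)) (.B 23 (.B 92 (.L 60) (.D 26)) (.D
  7))))) (.B 67 (.B 86 (.B 23 (.B 29 (.L 99) (.D 9)) (.D 7)) (.B 23 (.B 29 (.L 96) (.D 9)) (.D
  7))) (.B 86 (.B 23 (.B 29 (.L 94) (.D 9)) (.D 7)) (.B 23 (.B 29 (.L 98) (.D 9)) (.D 7))))) (.B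
  58 (.B 67 (.B 23 (.B 80 (.L 30) (.D 23)) (.D 7)) (.B 23 (.B 80 (.L 22) (.D 23)) (.D 7))) (.B 67
  (.B 23 (.B 80 (.L 231) (.D 23)) (.D 7)) (.B 23 (.B 80 (.L 215) (.D 23)) (.D 7))))))) (.B 21 (.B
  90 (.B 13 (.B 78 (.B 42 (.B 51 (.B 8 (.B 58 (.L 41) (.D 18)) (.D 2)) (.B 8 (.B 53 (.B 58 (.L 47)
  (.D 18)) (.D 16)) (.D 2))) (.B 51 (.B 8 (.B 44 (.L 50) (.D 14)) (.D 2)) (.B 8 (.B 44 (.B 53 (.L
  147) (.D 16)) (.D 14)) (.D 2)))) (.B 42 (.B 51 (.B 8 (.B 80 (.L 77) (.D 23)) (.D 2)) (.B 8 (.B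
  80 (.B 53 (.L 84) (.D 16)) (.D 23)) (.D 2))) (.B 51 (.B 8 (.B 80 (.B 44 (.L 85) (.D 14)) (.D
  23)) (.D 2)) (.B 8 (.B 80 (.B 44 (.B 53 (.L 83) (.D 16)) (.D 14)) (.D 23)) (.D 2))))) (.B 51 (.B
  78 (.B 8 (.B 14 (.B 58 (.L 110) (.D 18)) (.D 4)) (.D 2)) (.B 8 (.B 80 (.B 14 (.L 105) (.D 4))
  (.D 23)) (.D 2))) (.B 78 (.B 8 (.B 14 (.B 53 (.B 58 (.L 107) (.D 18)) (.D 16)) (.D 4)) (.D 2))
  (.B 8 (.B 80 (.B 14 (.B 53 (.L 111) (.D 16)) (.D 4)) (.D 23)) (.D 2))))) (.B 42 (.B 51 (.B 8 (.B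
  92 (.L 48) (.D 26)) (.D 2)) (.B 8 (.B 92 (.B 53 (.L 45) (.D 16)) (.D 26)) (.D 2))) (.B 51 (.B 8
  (.B 92 (.B 44 (.L 232) (.D 14)) (.D 26)) (.D 2)) (.B 8 (.B 92 (.B 44 (.B 53 (.L 149) (.D 16))
  (.D 14)) (.D 26)) (.D 2))))) (.B 78 (.B 90 (.B 8 (.B 23 (.B 46 (.B 58 (.L 185) (.D 18)) (.D 15))
  (.D 7)) (.D 2)) (.B 8 (.B 23 (.B 92 (.L 196) (.D 26)) (.D 7)) (.D 2))) (.B 8 (.B 23 (.B 80 (.L
  197) (.D 23)) (.D 7)) (.D 2)))))))))))))))))))))))) (.B 31 (.B 78 (.B 82 (.B 86 (.B 26 (.B 64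
  (.L 233) (.D 19)) (.D 8)) (.B 26 (.B 64 (.L 234) (.D 19)) (.D 8))) (.B 26 (.B 64 (.B 84 (.L 166)
  (.D 24)) (.D 19)) (.D 8))) (.B 26 (.B 80 (.L 235) (.D 23)) (.D 8))) (.B 26 (.B 32 (.L 236) (.D
  10)) (.D 8))))))))) (.B 90 (.B 86 (.B 10 (.B 78 (.B 5 (.B 44 (.L 237) (.D 14)) (.D 1)) (.B 5 (.B
  80 (.L 238) (.D 23)) (.D 1))) (.B 5 (.B 11 (.L 239) (.D 3)) (.D 1))) (.B 5 (.B 88 (.B 44 (.L
  147) (.D 14)) (.D 25)) (.D 1))) (.B 5 (.B 92 (.B 44 (.L 149) (.D 14)) (.D 26)) (.D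
  1))))))))))))))))))))))))

theorem D_tree : chk tree full = true := by decide +kernel

/-! ### Soundness -/

theorem go_complete : ∀ (n : ℕ) (vis : List (Fin 8)) (u : Fin 8) (l : List (Fin 8)),
    (u :: l).IsChain theta333.Adj → (u :: l).Nodup → (∀ x ∈ u :: l, x ∉ vis) → l.length ≤ n →
    u :: l ∈ go n vis u := by
  intro n
  induction n with
  | zero =>
    intro vis u l _ _ _ hl
    have : l = [] := List.length_eq_zero_iff.1 (Nat.le_zero.1 hl)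
    subst this
    simp [go]
  | succ n ih =>
    intro vis u l hc hn hv hl
    cases l with
    | nil => simp [go]
    | cons x l =>
      rw [List.isChain_cons_cons] at hc
      have hn' := List.nodup_cons.1 hn
      have h1 : x :: l ∈ go n (u :: vis) x := by
        refine ih _ _ _ hc.2 hn'.2 ?_ (by simpa using hl)
        intro y hy hy'
        rcases List.mem_cons.1 hy' with rfl | hy'
        · exact hn'.1 hy
        · exact hv y (List.mem_cons_of_mem _ hy) hy'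
      rw [go]
      refine List.mem_cons_of_mem _ (List.mem_flatMap.2 ⟨x, ?_, List.mem_map.2 ⟨_, h1, rfl⟩⟩)
      rw [List.mem_filter]
      refine ⟨?_, ?_⟩
      · unfold nb
        rw [List.mem_filter]
        exact ⟨List.mem_finRange x, decide_eq_true hc.1⟩
      · refine decide_eq_true fun h => ?_
        rcases List.mem_cons.1 h with h | h
        · exact hn'.1 (h ▸ List.mem_cons_self)
        · exact hv x (by simp) h

theorem mem_opts {u v : Fin 8} (huv : u < v) {l : List (Fin 8)} (hl : IsPath theta333 u v l) :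
    l ∈ opts := by
  obtain ⟨h1, h2, h3, h4⟩ := hl
  cases l with
  | nil => simp at h1
  | cons a l =>
    simp only [List.head?_cons, Option.some.injEq] at h1
    subst h1
    have hlen : (a :: l).length ≤ 8 := by
      have := h3.length_le_card
      simpa using this
    have h5 := go_complete 7 [] a l h4 h3 (by simp) (by rw [List.length_cons] at hlen; omega)
    have h6 := List.all_eq_true.1 (List.all_eq_true.1 D_go a (List.mem_finRange a)) _ h5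
    rw [h2] at h6
    simp only [Bool.or_eq_true, decide_eq_true_eq] at h6
    exact h6.resolve_left (not_le.2 huv)

theorem opt_idxOf {l : List (Fin 8)} (h : l ∈ opts) : opts.idxOf l < 96 ∧ opt (opts.idxOf l) = l := by
  have h1 := List.idxOf_lt_length_of_mem h
  refine ⟨by rw [← D_opts.1]; exact h1, ?_⟩
  unfold opt
  rw [List.getD_eq_getElem _ _ h1]
  exact List.getElem_idxOf h1

theorem opt_inj {o o' : ℕ} (ho : o < 96) (ho' : o' < 96) (h : opt o = opt o') : o = o' := by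
  have h1 : o < opts.length := by rw [D_opts.1]; exact ho
  have h2 : o' < opts.length := by rw [D_opts.1]; exact ho'
  unfold opt at h
  rw [List.getD_eq_getElem _ _ h1, List.getD_eq_getElem _ _ h2] at h
  exact (D_opts.2.getElem_inj_iff).1 h

/-- the number of a path -/
theorem exists_idx {i : ℕ} (hi : i < 28) {l : List (Fin 8)}
    (hl : IsPath theta333 (ends i).1 (ends i).2 l) : ∃ o < 96, opt o = l ∧ pidx o = i := by
  obtain ⟨h1, h2⟩ := opt_idxOf (mem_opts (D_ends_lt i hi) hl)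
  refine ⟨_, h1, h2, ?_⟩
  obtain ⟨h3, h4, h5⟩ := D_end _ h1
  rw [h2] at h3 h4
  refine D_ends_inj _ h5 _ hi (Prod.ext ?_ ?_)
  · have := h3.symm.trans hl.1
    exact Option.some.inj this
  · have := h4.symm.trans hl.2.1
    exact Option.some.inj this

section system

variable {P : PathSystem theta333} (hP : P.Consistent)

theorem D_sm {k : ℕ} (hk : k < 240) {o : ℕ} (ho : o < 96) (hs : (sm k).testBit o = true) {o' : ℕ}
    (ho' : o' < 96) (h : pidx o' = pidx o) : len k o ≤ len k o' := by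
  have h1 : k < wts.length := by rw [D_wts.1]; exact hk
  have h2 : k < sms.length := by rw [D_wts.2]; exact hk
  have h3 : (wt k, sm k) ∈ wts.zip sms := by
    unfold wt sm
    rw [List.getD_eq_getElem _ _ h1, List.getD_eq_getElem _ _ h2, ← List.getElem_zip (h :=
      by rw [List.length_zip]; exact lt_min h1 h2)]
    exact List.getElem_mem _
  have h4 := List.all_eq_true.1 D_chkW _ h3
  rw [D_groups] at h4
  have mem : ∀ p < 96, (p, eds p) ∈ ((List.range 96).filter fun q => pidx q == pidx p).map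
      fun q => (q, eds q) := fun p hp =>
    List.mem_map.2 ⟨p, List.mem_filter.2 ⟨List.mem_range.2 hp, by simp⟩, rfl⟩
  have h5 := List.all_eq_true.1 h4 (((List.range 96).filter fun q => pidx q == pidx o).map
      fun q => (q, eds q)) (List.mem_map.2 ⟨pidx o, List.mem_range.2 (D_end o ho).2.2, rfl⟩)
  have h6 := List.all_eq_true.1 h5 _ (mem o ho)
  simp only [hs, Bool.not_true, Bool.false_or] at h6
  have h7 := List.all_eq_true.1 h6 (o', eds o') (by rw [← h]; exact mem o' ho')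
  exact Nat.le_of_ble_eq_true h7

theorem D_pos {k : ℕ} (hk : k < 240) {e : ℕ} (he : e < 9) : 0 < dig k e := by
  have h1 : k < wts.length := by rw [D_wts.1]; exact hk
  have h3 : wt k ∈ wts := by
    unfold wt
    rw [List.getD_eq_getElem _ _ h1]
    exact List.getElem_mem _
  have h4 := List.all_eq_true.1 (List.all_eq_true.1 D_posW _ h3) e (List.mem_range.2 he)
  exact of_decide_eq_true h4

theorem exists_c (P : PathSystem theta333) : ∃ c : ℕ → ℕ, ∀ i < 28, c i < 96 ∧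
    opt (c i) = P.path (ends i).1 (ends i).2 ∧ pidx (c i) = i := by
  have h : ∀ i, ∃ o, i < 28 → o < 96 ∧ opt o = P.path (ends i).1 (ends i).2 ∧ pidx o = i := by
    intro i
    by_cases hi : i < 28
    · obtain ⟨o, h1, h2, h3⟩ := exists_idx hi (P.isPath _ _)
      exact ⟨o, fun _ => ⟨h1, h2, h3⟩⟩
    · exact ⟨0, fun h => absurd h hi⟩
  choose c hc using h
  exact ⟨c, fun i hi => hc i hi⟩

include hP in
theorem compat {c : ℕ → ℕ} (hc : ∀ i < 28, c i < 96 ∧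
    opt (c i) = P.path (ends i).1 (ends i).2 ∧ pidx (c i) = i) {i j : ℕ} (hi : i < 28)
    (hj : j < 28) : M1 (c i) (c j) = true := by
  unfold M1
  rw [List.all_eq_true]
  intro p hp
  obtain ⟨h1, h2, h3⟩ := hc i hi
  obtain ⟨k1, k2, k3⟩ := hc j hj
  obtain ⟨hp1, hp2⟩ := D_inf _ h1 p hp
  rw [Bool.or_eq_true]
  by_cases hpj : pidx p = j
  · right
    obtain ⟨e1, e2, _⟩ := D_end p hp1
    rw [hpj] at e1 e2
    have h4 : P.path (ends j).1 (ends j).2 = opt p := by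
      rcases hp2 with hp2 | hp2
      · rw [h2] at hp2
        exact hP _ _ _ _ _ hp2 e1 e2
      · rw [h2] at hp2
        have h5 := hP _ _ (ends j).2 (ends j).1 _ hp2 (by rw [List.head?_reverse, e2])
          (by rw [List.getLast?_reverse, e1])
        rw [P.symm, h5, List.reverse_reverse]
    rw [beq_iff_eq]
    exact opt_inj hp1 k1 (by rw [k2, h4])
  · left
    rw [k3]
    simpa using hpj

/-- the chosen paths are all allowed -/
def Good (c : ℕ → ℕ) (A : ℕ) : Prop := ∀ i < 28, A.testBit (c i) = true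

include hP in
theorem sound {c : ℕ → ℕ} (hc : ∀ i < 28, c i < 96 ∧
    opt (c i) = P.path (ends i).1 (ends i).2 ∧ pidx (c i) = i) : ∀ (t : T) (A : ℕ),
    Good c A → chk t A = true → ∃ k < 240, Good c (sm k) := by
  intro t
  induction t with
  | L k =>
    intro A hA h
    rw [chk, Bool.and_eq_true, decide_eq_true_eq, beq_iff_eq] at h
    refine ⟨k, h.1, fun i hi => ?_⟩
    have h1 := hA i hi
    rw [← h.2, Nat.testBit_land, Bool.and_eq_true] at h1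
    exact h1.2
  | D i =>
    intro A hA h
    rw [chk, Bool.and_eq_true, decide_eq_true_eq, beq_iff_eq] at h
    exfalso
    obtain ⟨h1, h2, h3⟩ := hc i h.1
    have h4 := D_pm _ h1
    rw [h3] at h4
    have h5 : (A &&& pm i).testBit (c i) = true := by
      rw [Nat.testBit_land, hA i h.1, h4]
      rfl
    rw [h.2, Nat.zero_testBit] at h5
    exact Bool.false_ne_true h5
  | B o y n ihy ihn =>
    intro A hA h
    rw [chk, Bool.and_eq_true] at h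
    by_cases ho : ∃ i < 28, c i = o
    · obtain ⟨i, hi, rfl⟩ := ho
      refine ihy _ (fun j hj => ?_) h.1
      rw [Nat.testBit_land, hA j hj, Bool.true_and]
      rcases D_cm _ (hc i hi).1 _ (hc j hj).1 with h1 | h1 | h1
      · exact h1
      · rw [compat hP hc hi hj] at h1
        exact absurd h1 (by decide)
      · rw [compat hP hc hj hi] at h1
        exact absurd h1 (by decide)
    · push Not at ho
      refine ihn _ (fun j hj => ?_) h.2
      rw [Nat.testBit_land, hA j hj, Bool.true_and, Nat.testBit_xor, Nat.testBit_two_pow_of_ne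
        (ho j hj).symm, Bool.xor_false]
      unfold full
      rw [Nat.testBit_two_pow_sub_one]
      exact decide_eq_true (hc j hj).1

include hP in
theorem exists_good : ∃ k < 240, ∀ i < 28, ∀ o < 96, ∀ o' < 96, pidx o = i → pidx o' = i →
    opt o = P.path (ends i).1 (ends i).2 → len k o ≤ len k o' := by
  obtain ⟨c, hc⟩ := exists_c P
  obtain ⟨k, hk, hg⟩ := sound hP hc tree full (fun i hi => by
    unfold full
    rw [Nat.testBit_two_pow_sub_one]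
    exact decide_eq_true (hc i hi).1) D_tree
  refine ⟨k, hk, fun i hi o ho o' ho' h1 h2 h3 => ?_⟩
  have h4 : o = c i := opt_inj ho (hc i hi).1 (by rw [h3, (hc i hi).2.1])
  refine D_sm hk ho ?_ ho' (by rw [h1, h2])
  rw [h4]
  exact hg i hi

end system

/-- the weight function with number `k` -/
noncomputable def wf (k : ℕ) (a b : Fin 8) : ℝ := (dig k (eidx (min a b) (max a b)) : ℕ)

theorem wf_symm (k : ℕ) (a b : Fin 8) : wf k a b = wf k b a := by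
  unfold wf
  rw [min_comm, max_comm]

theorem weight_snoc {V : Type*} (w : V → V → ℝ) (l : List V) (x y : V) :
    weight w (l ++ [x, y]) = weight w (l ++ [x]) + w x y := by
  induction l with
  | nil => simp [weight]
  | cons a l ih =>
    cases l with
    | nil => simp [weight]
    | cons b l =>
      simp only [List.cons_append, weight] at ih ⊢
      rw [ih]
      ring

theorem weight_reverse {V : Type*} {w : V → V → ℝ} (hw : ∀ a b, w a b = w b a) (l : List V) :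
    weight w l.reverse = weight w l := by
  induction l with
  | nil => rfl
  | cons a l ih =>
    cases l with
    | nil => rfl
    | cons b l =>
      have h1 : (a :: b :: l).reverse = l.reverse ++ [b, a] := by simp
      have h2 : (b :: l).reverse = l.reverse ++ [b] := by simp
      rw [h1, weight_snoc, ← h2, ih, weight, hw b a]
      ring

theorem weight_nonneg {V : Type*} {w : V → V → ℝ} {G : SimpleGraph V}
    (hw : ∀ a b, G.Adj a b → 0 < w a b) : ∀ l : List V, l.IsChain G.Adj → 0 ≤ weight w l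
  | [], _ => le_rfl
  | [_], _ => le_rfl
  | a :: b :: l, h => by
    rw [List.isChain_cons_cons] at h
    rw [weight]
    exact add_nonneg (hw _ _ h.1).le (weight_nonneg hw _ h.2)

theorem eidx_adj : ∀ a b : Fin 8, ((a, b) ∈ edges ∨ (b, a) ∈ edges) →
    eidx (min a b) (max a b) < 9 ∧ eidx a b = eidx (min a b) (max a b) := by decide +kernel

theorem weight_eq (k : ℕ) : ∀ l : List (Fin 8), l.IsChain theta333.Adj →
    weight (wf k) l = (((cons2 l).map (dig k)).sum : ℕ)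
  | [], _ => by simp [weight, cons2]
  | [_], _ => by simp [weight, cons2]
  | a :: b :: l, h => by
    rw [List.isChain_cons_cons] at h
    rw [weight, cons2, List.map_cons, List.sum_cons, weight_eq k _ h.2]
    push_cast
    unfold wf
    rw [(eidx_adj a b h.1).2]

/-- **`Θ_{3,3,3}` is metrizable.** -/
theorem result : Metrizable theta333 := by
  intro P hP
  obtain ⟨k, hk, hg⟩ := exists_good hP
  have hpos : ∀ a b, theta333.Adj a b → 0 < wf k a b := by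
    intro a b h
    unfold wf
    exact_mod_cast D_pos hk (eidx_adj a b h).1
  refine ⟨wf k, wf_symm k, hpos, ?_⟩
  have key : ∀ u v l, u < v → IsPath theta333 u v l →
      weight (wf k) (P.path u v) ≤ weight (wf k) l := by
    intro u v l huv hl
    obtain ⟨i, hi, he⟩ := D_ends_surj u v huv
    have hu : (ends i).1 = u := by rw [he]
    have hv : (ends i).2 = v := by rw [he]
    have hP' := P.isPath u v
    obtain ⟨o', h1', h2', h3'⟩ := exists_idx hi (l := l) (by rw [hu, hv]; exact hl)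
    obtain ⟨o, h1, h2, h3⟩ := exists_idx hi (l := P.path u v) (by rw [hu, hv]; exact hP')
    rw [weight_eq k _ hP'.2.2.2, weight_eq k _ hl.2.2.2, ← h2, ← h2', D_eds o h1, D_eds o' h1']
    have := hg i hi o h1 o' h1' h3 h3' (by rw [h2, hu, hv])
    exact_mod_cast this
  intro u v l hl
  rcases lt_trichotomy u v with h | h | h
  · exact key u v l h hl
  · subst h
    obtain ⟨h1, h2, h3, h4⟩ := P.isPath u u
    have h5 : P.path u u = [u] := by
      cases hp : P.path u u with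
      | nil => rw [hp] at h1; simp at h1
      | cons a m =>
        rw [hp] at h1 h2 h3
        simp only [List.head?_cons, Option.some.injEq] at h1
        subst h1
        cases m with
        | nil => rfl
        | cons b m =>
          exfalso
          have h6 : a ∈ b :: m := by
            rw [List.getLast?_cons_cons] at h2
            exact List.mem_of_getLast? h2
          exact (List.nodup_cons.1 h3).1 h6
    rw [h5]
    exact weight_nonneg hpos _ hl.2.2.2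
  · have h1 := key v u l.reverse h ⟨by rw [List.head?_reverse]; exact hl.2.1,
      by rw [List.getLast?_reverse]; exact hl.1, List.nodup_reverse.2 hl.2.2.1, ?_⟩
    · rw [P.symm v u, weight_reverse (wf_symm k)]
      rwa [weight_reverse (wf_symm k)] at h1
    · rw [List.isChain_reverse]
      exact hl.2.2.2.imp fun a b h => h.symm

end Pool.Agent.Results.MP_d7339e_co.ThetaThree
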